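import Mathlib
import Pool.Agent.Lib.MP_2823fe_lc.Defs
import Pool.Agent.Lib.MP_2823fe_lc.Bridge

/-!
Negative answer to Q1.
-/

set_option autoImplicit false

namespace Pool.Agent.Results.MP_2823fe_lc.NotHypersmooth

open Pool.Agent.Lib.MP_2823fe_lc

/-- There is a Borel (so analytic) equivalence relation on `E_∞` that the Carlson-Simpson ideal
does not canonize to any hypersmooth equivalence relation on any Polish space. -/
theorem result :
    ∃ E : Einf → Einf → Prop, Equivalence E ∧
      MeasureTheory.AnalyticSet {p : Einf × Einf | E p.1 p.2} ∧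
      MeasurableSet {p : Einf × Einf | E p.1 p.2} ∧
      ∀ (Y : Type) [TopologicalSpace Y] [PolishSpace Y] [MeasurableSpace Y] [BorelSpace Y]
        (F : Y → Y → Prop), Hypersmooth F → ¬ Canonizes E F := by
  refine ⟨Same, same_equiv, same_measurable.analyticSet, same_measurable, ?_⟩
  intro Y _ _ _ _ F hF hcan
  obtain ⟨C, -, hCm, hC, hred⟩ := hcan Set.univ MeasurableSet.univ univ_pos
  exact not_red hF hCm hC hred

end Pool.Agent.Results.MP_2823fe_lc.NotHypersmooth
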