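import Mathlib
import Pool.Agent.Lib.MP_2823fe_lc.Defs
import Pool.Agent.Lib.MP_2823fe_lc.U.Main

/-!
No canonization below the top: a relation that stays complete analytic on every positive Borel set.
-/

set_option autoImplicit false

namespace Pool.Agent.Results.MP_2823fe_lc.Universal

open Pool.Agent.Lib.MP_2823fe_lc

/-- There is an analytic equivalence relation `E` on `E_∞` such that every analytic equivalence
relation on every Polish space is Borel reducible to the restriction of `E` to every Borel set
outside the Carlson-Simpson ideal. -/
theorem result :
    ∃ E : Einf → Einf → Prop, Equivalence E ∧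
      MeasureTheory.AnalyticSet {p : Einf × Einf | E p.1 p.2} ∧
      ∀ C : Set Einf, MeasurableSet C → ¬ InI C →
        ∀ (X : Type) [TopologicalSpace X] [PolishSpace X] [MeasurableSpace X] [BorelSpace X]
          (R : X → X → Prop), Equivalence R → MeasureTheory.AnalyticSet {p : X × X | R p.1 p.2} →
          BorelRed R (fun x y : C => E x y) :=
  universal

end Pool.Agent.Results.MP_2823fe_lc.Universal
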